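import Pool.Agent.H577R3.RM.Stmts

set_option autoImplicit false

namespace Pool.Agent.H54.RM

open Pool.Agent.H577R3.RM MvPolynomial

theorem card_le_deg {σ : Type} (A : Multiset (MvPolynomial σ ℤ))
    (hA : ∀ f ∈ A, f ≠ 0 ∧ 1 ≤ f.totalDegree) :
    A.prod ≠ 0 ∧ Multiset.card A ≤ A.prod.totalDegree := by
  induction A using Multiset.induction_on with
  | empty => simp
  | cons f t ih =>
    obtain ⟨h1, h2⟩ := ih (fun g hg => hA g (Multiset.mem_cons_of_mem hg))
    obtain ⟨h3, h4⟩ := hA f (Multiset.mem_cons_self f t)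
    rw [Multiset.prod_cons, Multiset.card_cons]
    refine ⟨mul_ne_zero h3 h1, ?_⟩
    rw [totalDegree_mul_of_isDomain h3 h1]
    omega

theorem card_le_abs {σ : Type} (B : Multiset (MvPolynomial σ ℤ))
    (hB : ∀ f ∈ B, ∃ b : ℤ, f = C b ∧ 2 ≤ |b|) :
    ∃ b : ℤ, B.prod = C b ∧ (2 : ℤ) ^ (Multiset.card B) ≤ |b| := by
  induction B using Multiset.induction_on with
  | empty => exact ⟨1, by simp⟩
  | cons f t ih =>
    obtain ⟨b, h1, h2⟩ := ih (fun g hg => hB g (Multiset.mem_cons_of_mem hg))
    obtain ⟨c, h3, h4⟩ := hB f (Multiset.mem_cons_self f t)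
    refine ⟨c * b, by rw [Multiset.prod_cons, h1, h3, C_mul], ?_⟩
    rw [Multiset.card_cons, pow_succ, abs_mul, mul_comm]
    exact mul_le_mul h4 h2 (by positivity) (abs_nonneg _)

theorem taskCCc : TaskCCc := by
  classical
  intro σ _ P d e hP hd he
  set s := UniqueFactorizationMonoid.factors P with hs
  refine ⟨(s.map (fun f => Ideal.span {f})).toFinset, ?_, ?_⟩
  · refine (Multiset.toFinset_card_le _).trans ?_
    rw [Multiset.card_map]
    set A := s.filter (fun f => 1 ≤ f.totalDegree) with hA
    set B := s.filter (fun f => ¬ 1 ≤ f.totalDegree) with hB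
    have hsAB : A + B = s := Multiset.filter_add_not _ _
    have hirr : ∀ f ∈ s, Irreducible f := fun f hf =>
      UniqueFactorizationMonoid.irreducible_of_factor f hf
    have hprod : s.prod ∣ P := (UniqueFactorizationMonoid.factors_prod hP).dvd
    have hAB : A.prod * B.prod ∣ P := by rw [← Multiset.prod_add, hsAB]; exact hprod
    obtain ⟨hA0, hAc⟩ := card_le_deg A (fun f hf => by
      rw [hA, Multiset.mem_filter] at hf
      exact ⟨(hirr f hf.1).ne_zero, hf.2⟩)
    obtain ⟨b, hb1, hb2⟩ := card_le_abs B (fun f hf => by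
      rw [hB, Multiset.mem_filter] at hf
      have h0 : f.totalDegree = 0 := by omega
      have hf2 := (totalDegree_eq_zero_iff_eq_C.mp h0)
      refine ⟨_, hf2, ?_⟩
      have hi := hirr f hf.1
      set c := coeff 0 f with hc
      have hc0 : c ≠ 0 := by
        intro h
        rw [h, C_0] at hf2
        exact hi.ne_zero hf2
      have hc1 : ¬ IsUnit c := by
        intro h
        apply hi.not_isUnit
        rw [hf2]
        exact h.map C
      rw [Int.isUnit_iff_abs_eq] at hc1
      have := abs_pos.mpr hc0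
      omega)
    have h1 : Multiset.card A ≤ d := by
      obtain ⟨R, hR⟩ := (dvd_mul_right A.prod B.prod).trans hAB
      have hR0 : R ≠ 0 := by
        rintro rfl
        exact hP (by rw [hR, mul_zero])
      have : P.totalDegree = A.prod.totalDegree + R.totalDegree := by
        rw [hR, totalDegree_mul_of_isDomain hA0 hR0]
      omega
    have h2 : Multiset.card B ≤ e := by
      have hdvd : C b ∣ P := by
        rw [← hb1]; exact (dvd_mul_left B.prod A.prod).trans hAB
      obtain ⟨u, hu⟩ := MvPolynomial.ne_zero_iff.mp hP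
      have h3 : b ∣ coeff u P := (MvPolynomial.C_dvd_iff_dvd_coeff b P).mp hdvd u
      have h4 : |b| ≤ |coeff u P| :=
        Int.le_of_dvd (abs_pos.mpr hu) ((abs_dvd_abs _ _).mpr h3)
      have h5 : (2 : ℤ) ^ (Multiset.card B) ≤ 2 ^ e := (hb2.trans h4).trans (he u)
      exact (pow_le_pow_iff_right₀ (by norm_num)).mp h5
    rw [← hsAB, Multiset.card_add]
    omega
  · intro f hf hdvd
    obtain ⟨g, hg, hfg⟩ := UniqueFactorizationMonoid.exists_mem_factors_of_dvd hP hf hdvd
    rw [Multiset.mem_toFinset, Multiset.mem_map]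
    exact ⟨g, hg, (Ideal.span_singleton_eq_span_singleton.mpr hfg.symm)⟩

end Pool.Agent.H54.RM
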